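import Pool.Agent.Helper32.PG.Stm
import Pool.Graph.R_pool_sql_team_seeded_843ab51a.V11222.Kik.Efron

/-!
# Chebyshev with the Efron-Stein inequality (package P3) and the exponents (package P5) of the
polynomial growth project
-/

set_option autoImplicit false

namespace Pool.Agent.Helper56.PG

open MeasureTheory ProbabilityTheory Pool.Agent.V11222.Kik

section

variable {X : Type} [DecidableEq X]

/-- extension by zero -/
def ex0 (S : Finset X) (u : S → ℝ) (x : X) : ℝ := if h : x ∈ S then u ⟨x, h⟩ else 0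

theorem ex0_mem (S : Finset X) (u : S → ℝ) (x : S) : ex0 S u x = u x := by
  rw [ex0, dif_pos x.2]

theorem meas_ex0 (S : Finset X) : Measurable (ex0 S) := by
  apply measurable_pi_lambda
  intro x
  unfold ex0
  split_ifs with h
  · exact measurable_pi_apply _
  · exact measurable_const

theorem ex0_update (S : Finset X) (u : S → ℝ) (j : S) (t : ℝ) :
    ex0 S (Function.update u j t) = Function.update (ex0 S u) j t := by
  funext x
  by_cases hx : x = (j : X)
  · subst hx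
    rw [Function.update_self, ex0_mem, Function.update_self]
  · rw [Function.update_of_ne hx]
    unfold ex0
    split_ifs with h
    · rw [Function.update_of_ne]
      intro hj
      exact hx (congrArg Subtype.val hj)
    · rfl

end

theorem dev : Pool.Agent.Helper32.PG.S_Dev := by
  intro X _ _ μ _ b hμ G S D K hG hD hK hS hDD t ht
  have hb : 0 ≤ b := by
    by_contra h
    have h1 : Set.Icc (-b) b = ∅ := Set.Icc_eq_empty (by linarith)
    rw [h1, Set.compl_empty, measure_univ] at hμ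
    exact one_ne_zero hμ
  have hae : ∀ᵐ s ∂μ, |s| ≤ b := by
    rw [ae_iff]
    have : {a : ℝ | ¬ |a| ≤ b} = (Set.Icc (-b) b)ᶜ := by
      ext a
      simp only [Set.mem_ofPred_eq, Set.mem_compl_iff, Set.mem_Icc, abs_le]
    rw [this]
    exact hμ
  let G' : (S → ℝ) → ℝ := fun u => G (ex0 S u)
  have hG' : Measurable G' := hG.comp (meas_ex0 S)
  have hGG : ∀ ω : X → ℝ, G ω = G' (S.restrict ω) := by
    intro ω
    refine hS _ _ fun x hx => ?_
    exact (ex0_mem S (S.restrict ω) ⟨x, hx⟩).symm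
  have hbox : ∀ u : S → ℝ, (∀ i, |u i| ≤ b) → ∀ x, |ex0 S u x| ≤ b := by
    intro u hu x
    unfold ex0
    split_ifs with h
    · exact hu _
    · rwa [abs_zero]
  have hL : MemLp G' 2 (PP S μ) := by
    refine MemLp.of_bound hG'.aestronglyMeasurable K ?_
    have h1 : ∀ᵐ u ∂(PP S μ), ∀ i, |u i| ≤ b := ae_all_iff.2 fun i =>
      (measurePreserving_eval (fun _ : S => μ) i).quasiMeasurePreserving.ae hae
    filter_upwards [h1] with u hu
    rw [Real.norm_eq_abs]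
    exact hK _ (hbox u hu)
  have hInf : ∀ j : S, Inf2 μ G' j ≤ D ^ 2 := by
    intro j
    have h1 : ∀ᵐ θ ∂(QQ S μ), ∀ i, |(θ i).1| ≤ b ∧ |(θ i).2| ≤ b := by
      refine ae_all_iff.2 fun i => ?_
      have h2 : ∀ᵐ z ∂(μ.prod μ), |z.1| ≤ b ∧ |z.2| ≤ b :=
        (Measure.quasiMeasurePreserving_fst.ae hae).and (Measure.quasiMeasurePreserving_snd.ae hae)
      exact (measurePreserving_eval (fun _ : S => μ.prod μ) i).quasiMeasurePreserving.ae h2
    have h3 : ∫ θ, (G' (sel ∅ θ) - G' (sel {j} θ)) ^ 2 ∂(QQ S μ) ≤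
        ∫ _θ : S → ℝ × ℝ, D ^ 2 ∂(QQ S μ) := by
      refine integral_mono_ae (sqi2 hL ∅ {j}) (integrable_const _) ?_
      filter_upwards [h1] with θ hθ
      have h4 : ∀ y, |ex0 S (sel ∅ θ) y| ≤ b := hbox _ fun i => by
        simp only [sel, Finset.notMem_empty, if_false]
        exact (hθ i).1
      have h5 := hDD (ex0 S (sel ∅ θ)) j (θ j).2 h4 (hθ j).2
      rw [← ex0_update, ← sel_single] at h5
      have h6 : |G' (sel ∅ θ) - G' (sel {j} θ)| ≤ D := by
        rw [abs_sub_comm]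
        exact h5
      show (G' (sel ∅ θ) - G' (sel {j} θ)) ^ 2 ≤ D ^ 2
      rw [← sq_abs]
      exact pow_le_pow_left₀ (abs_nonneg _) h6 2
    rw [integral_const, probReal_univ, one_smul] at h3
    exact h3
  have hvar : variance G' (PP S μ) ≤ S.card * D ^ 2 := by
    rw [variance_eq_sub hL]
    have h1 := efron G' hG' hL
    have h2 : ∑ j : S, Inf2 μ G' j ≤ S.card * D ^ 2 := by
      have := Finset.sum_le_sum fun (j : S) (_ : j ∈ Finset.univ) => hInf j
      rwa [Finset.sum_const, Finset.card_univ, Fintype.card_coe, nsmul_eq_mul] at this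
    have h3 : (0 : ℝ) ≤ S.card * D ^ 2 := mul_nonneg (Nat.cast_nonneg _) (sq_nonneg D)
    have h4 : ∫ ω, (G' ^ 2) ω ∂(PP S μ) = ∫ ω, G' ω ^ 2 ∂(PP S μ) := rfl
    rw [h4]
    linarith
  have hmap : (Measure.infinitePi (fun _ : X => μ)).map S.restrict = PP S μ :=
    Measure.infinitePi_map_restrict (μ := fun _ : X => μ) (I := S)
  have hmr : Measurable (S.restrict : (X → ℝ) → S → ℝ) := Finset.measurable_restrict S
  have hint : ∫ ω', G ω' ∂(Measure.infinitePi (fun _ : X => μ)) = ∫ u, G' u ∂(PP S μ) := by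
    rw [← hmap, integral_map hmr.aemeasurable hG'.aestronglyMeasurable]
    exact integral_congr_ae (Filter.Eventually.of_forall hGG)
  have hset : {ω : X → ℝ | t ≤ |G ω - ∫ ω', G ω' ∂(Measure.infinitePi (fun _ : X => μ))|} =
      S.restrict ⁻¹' {u : S → ℝ | t ≤ |G' u - ∫ u, G' u ∂(PP S μ)|} := by
    ext ω
    rw [Set.mem_preimage, Set.mem_ofPred_eq, Set.mem_ofPred_eq, hint, hGG]
  have hms : MeasurableSet {u : S → ℝ | t ≤ |G' u - ∫ u, G' u ∂(PP S μ)|} :=
    measurableSet_le measurable_const ((hG'.sub_const _).abs)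
  rw [hset, ← Measure.map_apply hmr hms, hmap]
  refine (meas_ge_le_variance_div_sq hL ht).trans (ENNReal.ofReal_le_ofReal ?_)
  exact div_le_div_of_nonneg_right hvar (by positivity)

theorem pow_step (j n : ℕ) (hj : 1 ≤ j) : (n + 1 + 2 * j) ^ j ≤ 2 * (n + 2 * j) ^ j := by
  have hpos : (0 : ℝ) < (n : ℝ) + 1 + 2 * j := by positivity
  have hj' : (1 : ℝ) ≤ j := by exact_mod_cast hj
  have h1 := one_add_mul_le_pow (a := -(1 / ((n : ℝ) + 1 + 2 * j))) (by
    have : 1 / ((n : ℝ) + 1 + 2 * j) ≤ 1 := by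
      rw [div_le_one hpos]
      have : (0 : ℝ) ≤ n := by positivity
      linarith
    linarith) j
  have h2 : 1 + (j : ℝ) * -(1 / ((n : ℝ) + 1 + 2 * j)) ≥ 1 / 2 := by
    have h3 : (j : ℝ) * (1 / ((n : ℝ) + 1 + 2 * j)) ≤ 1 / 2 := by
      rw [mul_one_div, div_le_iff₀ hpos]
      have : (0 : ℝ) ≤ n := by positivity
      linarith
    linarith
  have h4 : ((n : ℝ) + 1 + 2 * j) ^ j * (1 + -(1 / ((n : ℝ) + 1 + 2 * j))) ^ j =
      ((n : ℝ) + 2 * j) ^ j := by
    rw [← mul_pow]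
    congr 1
    field_simp
    ring
  have h5 : ((n : ℝ) + 1 + 2 * j) ^ j * (1 / 2) ≤ ((n : ℝ) + 2 * j) ^ j := by
    rw [← h4]
    exact mul_le_mul_of_nonneg_left (h2.le.trans h1) (by positivity)
  have h6 : ((n : ℝ) + 1 + 2 * j) ^ j ≤ 2 * ((n : ℝ) + 2 * j) ^ j := by linarith
  exact_mod_cast h6

theorem exps : Pool.Agent.Helper32.PG.S_Exp := by
  intro j hj
  have hne : ∀ n : ℕ, (n + 2 * j) ^ j ≠ 0 := fun n => pow_ne_zero _ (by omega)
  have hmono : ∀ n, Nat.log 2 ((0 + 2 * j) ^ j) ≤ Nat.log 2 ((n + 2 * j) ^ j) := fun n =>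
    Nat.log_mono_right (Nat.pow_le_pow_left (by omega) j)
  refine ⟨fun n => Nat.log 2 ((n + 2 * j) ^ j) - Nat.log 2 ((0 + 2 * j) ^ j),
    2 * ((2 * j : ℕ) : ℝ) ^ j, Nat.sub_self _, fun n => ?_, fun n => ?_, fun n => ?_⟩
  · have h1 : Nat.log 2 ((n + 2 * j) ^ j) ≤ Nat.log 2 ((n + 1 + 2 * j) ^ j) :=
      Nat.log_mono_right (Nat.pow_le_pow_left (by omega) j)
    have h2 : Nat.log 2 ((n + 1 + 2 * j) ^ j) ≤ Nat.log 2 ((n + 2 * j) ^ j) + 1 := by
      have e := Nat.log_mul_base (b := 2) (by norm_num) (hne n)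
      rw [← e, Nat.mul_comm ((n + 2 * j) ^ j) 2]
      exact Nat.log_mono_right (pow_step j n hj)
    have h3 := hmono n
    show Nat.log 2 ((n + 1 + 2 * j) ^ j) - Nat.log 2 ((0 + 2 * j) ^ j) =
        Nat.log 2 ((n + 2 * j) ^ j) - Nat.log 2 ((0 + 2 * j) ^ j) ∨
      Nat.log 2 ((n + 1 + 2 * j) ^ j) - Nat.log 2 ((0 + 2 * j) ^ j) =
        Nat.log 2 ((n + 2 * j) ^ j) - Nat.log 2 ((0 + 2 * j) ^ j) + 1
    omega
  · have h1 : 2 ^ (Nat.log 2 ((n + 2 * j) ^ j) - Nat.log 2 ((0 + 2 * j) ^ j)) ≤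
        2 * (2 * j) ^ j * (n + 1) ^ j := by
      calc 2 ^ (Nat.log 2 ((n + 2 * j) ^ j) - Nat.log 2 ((0 + 2 * j) ^ j))
          ≤ 2 ^ Nat.log 2 ((n + 2 * j) ^ j) := Nat.pow_le_pow_right (by norm_num) (Nat.sub_le _ _)
        _ ≤ (n + 2 * j) ^ j := Nat.pow_log_le_self 2 (hne n)
        _ ≤ (2 * j * (n + 1)) ^ j := Nat.pow_le_pow_left (by nlinarith) j
        _ = (2 * j) ^ j * (n + 1) ^ j := mul_pow _ _ _
        _ ≤ 2 * (2 * j) ^ j * (n + 1) ^ j := by
            refine Nat.mul_le_mul_right _ ?_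
            omega
    exact_mod_cast h1
  · have h1 : (n + 1) ^ j ≤
        2 * (2 * j) ^ j * 2 ^ (Nat.log 2 ((n + 2 * j) ^ j) - Nat.log 2 ((0 + 2 * j) ^ j)) := by
      have h2 : (n + 2 * j) ^ j < 2 ^ (Nat.log 2 ((n + 2 * j) ^ j) + 1) :=
        Nat.lt_pow_succ_log_self (by norm_num) _
      have h3 : 2 ^ Nat.log 2 ((0 + 2 * j) ^ j) ≤ (0 + 2 * j) ^ j := Nat.pow_log_le_self 2 (hne 0)
      rw [Nat.zero_add] at h3
      have h4 : 2 ^ (Nat.log 2 ((n + 2 * j) ^ j) + 1) =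
          2 * (2 ^ Nat.log 2 ((0 + 2 * j) ^ j) *
            2 ^ (Nat.log 2 ((n + 2 * j) ^ j) - Nat.log 2 ((0 + 2 * j) ^ j))) := by
        rw [← pow_add, Nat.add_sub_cancel' (hmono n), pow_succ, mul_comm]
      calc (n + 1) ^ j ≤ (n + 2 * j) ^ j := Nat.pow_le_pow_left (by omega) j
        _ ≤ 2 ^ (Nat.log 2 ((n + 2 * j) ^ j) + 1) := h2.le
        _ = 2 * (2 ^ Nat.log 2 ((0 + 2 * j) ^ j) *
            2 ^ (Nat.log 2 ((n + 2 * j) ^ j) - Nat.log 2 ((0 + 2 * j) ^ j))) := h4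
        _ ≤ 2 * ((2 * j) ^ j *
            2 ^ (Nat.log 2 ((n + 2 * j) ^ j) - Nat.log 2 ((0 + 2 * j) ^ j))) := by
            refine Nat.mul_le_mul_left _ (Nat.mul_le_mul_right _ ?_)
            rw [Nat.zero_add]
            exact h3
        _ = _ := by rw [mul_assoc]
    exact_mod_cast h1

end Pool.Agent.Helper56.PG
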