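import Pool.Agent.Helper32.PG.Stm3
import Pool.Agent.Helper56.PG.Dev

/-!
# Mean deviation from the Efron-Stein inequality (package N2 of the polynomial growth project)
-/

set_option autoImplicit false

namespace Pool.Agent.Helper56.PG

open MeasureTheory ProbabilityTheory Pool.Agent.V11222.Kik

theorem mean : Pool.Agent.Helper32.PG.S_Mean := by
  intro X _ _ μ _ b hμ G S D K hG hD hK hS hDD
  have hb : 0 ≤ b := by
    by_contra h
    have h1 : Set.Icc (-b) b = ∅ := Set.Icc_eq_empty (by linarith)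
    rw [h1, Set.compl_empty, measure_univ] at hμ
    exact one_ne_zero hμ
  have hae : ∀ᵐ s ∂μ, |s| ≤ b := by
    rw [ae_iff]
    have : {a : ℝ | ¬ |a| ≤ b} = (Set.Icc (-b) b)ᶜ := by
      ext a
      simp only [Set.mem_ofPred_eq, Set.mem_compl_iff, Set.mem_Icc, abs_le]
    rw [this]
    exact hμ
  let G' : (S → ℝ) → ℝ := fun u => G (ex0 S u)
  have hG' : Measurable G' := hG.comp (meas_ex0 S)
  have hGG : ∀ ω : X → ℝ, G ω = G' (S.restrict ω) := by
    intro ω
    refine hS _ _ fun x hx => ?_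
    exact (ex0_mem S (S.restrict ω) ⟨x, hx⟩).symm
  have hbox : ∀ u : S → ℝ, (∀ i, |u i| ≤ b) → ∀ x, |ex0 S u x| ≤ b := by
    intro u hu x
    unfold ex0
    split_ifs with h
    · exact hu _
    · rwa [abs_zero]
  have hL : MemLp G' 2 (PP S μ) := by
    refine MemLp.of_bound hG'.aestronglyMeasurable K ?_
    have h1 : ∀ᵐ u ∂(PP S μ), ∀ i, |u i| ≤ b := ae_all_iff.2 fun i =>
      (measurePreserving_eval (fun _ : S => μ) i).quasiMeasurePreserving.ae hae
    filter_upwards [h1] with u hu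
    rw [Real.norm_eq_abs]
    exact hK _ (hbox u hu)
  have hInf : ∀ j : S, Inf2 μ G' j ≤ D ^ 2 := by
    intro j
    have h1 : ∀ᵐ θ ∂(QQ S μ), ∀ i, |(θ i).1| ≤ b ∧ |(θ i).2| ≤ b := by
      refine ae_all_iff.2 fun i => ?_
      have h2 : ∀ᵐ z ∂(μ.prod μ), |z.1| ≤ b ∧ |z.2| ≤ b :=
        (Measure.quasiMeasurePreserving_fst.ae hae).and (Measure.quasiMeasurePreserving_snd.ae hae)
      exact (measurePreserving_eval (fun _ : S => μ.prod μ) i).quasiMeasurePreserving.ae h2
    have h3 : ∫ θ, (G' (sel ∅ θ) - G' (sel {j} θ)) ^ 2 ∂(QQ S μ) ≤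
        ∫ _θ : S → ℝ × ℝ, D ^ 2 ∂(QQ S μ) := by
      refine integral_mono_ae (sqi2 hL ∅ {j}) (integrable_const _) ?_
      filter_upwards [h1] with θ hθ
      have h4 : ∀ y, |ex0 S (sel ∅ θ) y| ≤ b := hbox _ fun i => by
        simp only [sel, Finset.notMem_empty, if_false]
        exact (hθ i).1
      have h5 := hDD (ex0 S (sel ∅ θ)) j (θ j).2 j.2 h4 (hθ j).2
      rw [← ex0_update, ← sel_single] at h5
      have h6 : |G' (sel ∅ θ) - G' (sel {j} θ)| ≤ D := by
        rw [abs_sub_comm]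
        exact h5
      show (G' (sel ∅ θ) - G' (sel {j} θ)) ^ 2 ≤ D ^ 2
      rw [← sq_abs]
      exact pow_le_pow_left₀ (abs_nonneg _) h6 2
    rw [integral_const, probReal_univ, one_smul] at h3
    exact h3
  have hvar : variance G' (PP S μ) ≤ S.card * D ^ 2 := by
    rw [variance_eq_sub hL]
    have h1 := efron G' hG' hL
    have h2 : ∑ j : S, Inf2 μ G' j ≤ S.card * D ^ 2 := by
      have := Finset.sum_le_sum fun (j : S) (_ : j ∈ Finset.univ) => hInf j
      rwa [Finset.sum_const, Finset.card_univ, Fintype.card_coe, nsmul_eq_mul] at this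
    have h3 : (0 : ℝ) ≤ S.card * D ^ 2 := mul_nonneg (Nat.cast_nonneg _) (sq_nonneg D)
    have h4 : ∫ ω, (G' ^ 2) ω ∂(PP S μ) = ∫ ω, G' ω ^ 2 ∂(PP S μ) := rfl
    rw [h4]
    linarith
  have hmap : (Measure.infinitePi (fun _ : X => μ)).map S.restrict = PP S μ :=
    Measure.infinitePi_map_restrict (μ := fun _ : X => μ) (I := S)
  have hmr : Measurable (S.restrict : (X → ℝ) → S → ℝ) := Finset.measurable_restrict S
  have hint : ∫ ω', G ω' ∂(Measure.infinitePi (fun _ : X => μ)) = ∫ u, G' u ∂(PP S μ) := by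
    rw [← hmap, integral_map hmr.aemeasurable hG'.aestronglyMeasurable]
    exact integral_congr_ae (Filter.Eventually.of_forall hGG)
  have hGi : Integrable G' (PP S μ) := hL.integrable one_le_two
  refine ⟨?_, ?_⟩
  · have h1 : Integrable (G' ∘ S.restrict) (Measure.infinitePi (fun _ : X => μ)) := by
      rw [← hmap] at hGi
      exact hGi.comp_measurable hmr
    exact h1.congr (Filter.Eventually.of_forall fun ω => (hGG ω).symm)
  · rw [hint]
    obtain ⟨c, hc⟩ : ∃ c : ℝ, c = ∫ u, G' u ∂(PP S μ) := ⟨_, rfl⟩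
    rw [← hc]
    have e1 : ∫ ω, |G ω - c| ∂(Measure.infinitePi (fun _ : X => μ)) =
        ∫ u, |G' u - c| ∂(PP S μ) := by
      rw [← hmap, integral_map hmr.aemeasurable
        (hG'.sub_const c).abs.aestronglyMeasurable]
      exact integral_congr_ae (Filter.Eventually.of_forall fun ω => by
        show |G ω - c| = |G' (S.restrict ω) - c|
        rw [hGG])
    rw [e1]
    have hLc : MemLp (fun u => G' u - c) 2 (PP S μ) := hL.sub (memLp_const c)
    have hLa : MemLp (fun u => |G' u - c|) 2 (PP S μ) := hLc.abs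
    have h2 := variance_nonneg (fun u => |G' u - c|) (PP S μ)
    rw [variance_eq_sub hLa] at h2
    have h3 : ∫ u, ((fun u => |G' u - c|) ^ 2) u ∂(PP S μ) = variance G' (PP S μ) := by
      rw [variance_eq_integral hG'.aemeasurable, ← hc]
      exact integral_congr_ae (Filter.Eventually.of_forall fun u => by
        show |G' u - c| ^ 2 = (G' u - c) ^ 2
        rw [sq_abs])
    rw [h3] at h2
    have h4 : (∫ u, |G' u - c| ∂(PP S μ)) ^ 2 ≤ S.card * D ^ 2 := by linarith
    have h5 : 0 ≤ √(S.card : ℝ) * D := mul_nonneg (Real.sqrt_nonneg _) hD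
    have h6 : (√(S.card : ℝ) * D) ^ 2 = S.card * D ^ 2 := by
      rw [mul_pow, Real.sq_sqrt (Nat.cast_nonneg _)]
    rw [← h6] at h4
    exact abs_le_of_sq_le_sq' h4 h5 |>.2

end Pool.Agent.Helper56.PG
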