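import Pool.Agent.Helper32.PG.Stm2

/-!
P8 of the polynomial growth project: no eigenvector, no atom of the spectral measures.
-/

set_option autoImplicit false

open MeasureTheory Filter Topology
open scoped InnerProductSpace

namespace Pool.Agent.Helper56.PG

open Pool.Agent.TH369.AN (Rz rz_eq rz_uniq rz_norm)
open Pool.Agent.Y662.TR (LL)
open Pool.Agent.TH369.MU (SpM)

section
variable {X : Type} [NormedAddCommGroup X] [InnerProductSpace ℂ X] [CompleteSpace X]

theorem dense_range (T : X →L[ℂ] X) (hT : IsSelfAdjoint T) (E : ℝ)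
    (hE : ∀ u : X, T u = (E : ℂ) • u → u = 0) (f : X) (ε : ℝ) (hε : 0 < ε) :
    ∃ w : X, ‖f - (T w - (E : ℂ) • w)‖ < ε := by
  set A : X →L[ℂ] X := T - (E : ℂ) • (1 : X →L[ℂ] X) with hA
  have hAa : ContinuousLinearMap.adjoint A = A := by
    have h1 : IsSelfAdjoint A := by
      apply IsSelfAdjoint.sub hT
      rw [isSelfAdjoint_iff, star_smul, star_one]
      simp
    exact h1
  have hker : LinearMap.ker (A : X →ₗ[ℂ] X) = ⊥ := by
    rw [LinearMap.ker_eq_bot']
    intro u hu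
    apply hE u
    have h2 : T u - (E : ℂ) • u = 0 := by simpa [hA] using hu
    exact sub_eq_zero.1 h2
  have horth : (LinearMap.range (A : X →ₗ[ℂ] X))ᗮ = ⊥ := by
    rw [eq_bot_iff]
    intro u hu
    rw [Submodule.mem_orthogonal] at hu
    have h3 : A u = 0 := by
      apply ext_inner_left ℂ
      intro v
      rw [inner_zero_right]
      have h4 := hu (A v) ⟨v, rfl⟩
      rw [← ContinuousLinearMap.adjoint_inner_right A] at h4
      rw [hAa] at h4
      exact h4
    have h5 : u ∈ LinearMap.ker (A : X →ₗ[ℂ] X) := h3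
    rwa [hker] at h5
  have hcl : (LinearMap.range (A : X →ₗ[ℂ] X)).topologicalClosure = ⊤ := by
    rw [Submodule.topologicalClosure_eq_top_iff, horth]
  have hf : f ∈ closure (Set.range A) := by
    have h6 : f ∈ (LinearMap.range (A : X →ₗ[ℂ] X)).topologicalClosure := by
      rw [hcl]; trivial
    exact h6
  rw [Metric.mem_closure_iff] at hf
  obtain ⟨b, ⟨w, rfl⟩, hb⟩ := hf ε hε
  refine ⟨w, ?_⟩
  rw [dist_eq_norm] at hb
  simpa [hA] using hb

theorem eta_small (T : X →L[ℂ] X) (hT : IsSelfAdjoint T) (E : ℝ)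
    (hE : ∀ u : X, T u = (E : ℂ) • u → u = 0) (f : X) :
    Tendsto (fun n : ℕ => (1 / ((n : ℝ) + 1)) *
      ‖Rz T ((E : ℂ) + ((1 / ((n : ℝ) + 1) : ℝ) : ℂ) * Complex.I) f‖) atTop (𝓝 0) := by
  rw [Metric.tendsto_atTop]
  intro ε hε
  obtain ⟨w, hw⟩ := dense_range T hT E hE f (ε / 2) (half_pos hε)
  obtain ⟨N, hN⟩ := exists_nat_gt (4 * ‖w‖ / ε)
  refine ⟨N, fun n hn => ?_⟩
  obtain ⟨η, hη⟩ : ∃ η : ℝ, η = 1 / ((n : ℝ) + 1) := ⟨_, rfl⟩
  have hn0 : (0 : ℝ) < (n : ℝ) + 1 := by positivity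
  have hη0 : 0 < η := by rw [hη]; positivity
  rw [← hη]
  obtain ⟨z, hz⟩ : ∃ z : ℂ, z = (E : ℂ) + ((η : ℝ) : ℂ) * Complex.I := ⟨_, rfl⟩
  rw [← hz]
  have hzim : z.im = η := by rw [hz]; simp
  have hzim0 : z.im ≠ 0 := by rw [hzim]; exact hη0.ne'
  have hsplit : Rz T z f = Rz T z (f - (T w - (E : ℂ) • w)) + (w + (((η : ℝ) : ℂ) * Complex.I) • Rz T z w) := by
    have h1 : w + (((η : ℝ) : ℂ) * Complex.I) • Rz T z w = Rz T z (T w - (E : ℂ) • w) := by
      apply rz_uniq T hT z hzim0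
      have h2 := rz_eq T hT z hzim0 w
      rw [map_add, map_smul]
      have h3 : T (Rz T z w) = w + z • Rz T z w := sub_eq_iff_eq_add.1 h2
      rw [h3]
      generalize Rz T z w = r
      rw [hz]
      module
    rw [h1, ← map_add]
    simp
  have hb1 : ‖Rz T z (f - (T w - (E : ℂ) • w))‖ ≤ (ε / 2) / η := by
    have := rz_norm T hT z hzim0 (f - (T w - (E : ℂ) • w))
    rw [hzim, abs_of_pos hη0] at this
    refine this.trans ?_
    gcongr
  have hb2 : ‖(((η : ℝ) : ℂ) * Complex.I) • Rz T z w‖ ≤ ‖w‖ := by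
    rw [norm_smul, norm_mul, Complex.norm_I, mul_one, Complex.norm_real, Real.norm_eq_abs,
      abs_of_pos hη0]
    have := rz_norm T hT z hzim0 w
    rw [hzim, abs_of_pos hη0] at this
    calc η * ‖Rz T z w‖ ≤ η * (‖w‖ / η) := by gcongr
      _ = ‖w‖ := by field_simp
  rw [Real.dist_eq, sub_zero, abs_of_nonneg (by positivity)]
  have h5 : ‖Rz T z f‖ ≤ (ε / 2) / η + (‖w‖ + ‖w‖) := by
    rw [hsplit]
    refine (norm_add_le _ _).trans (add_le_add hb1 ((norm_add_le _ _).trans ?_))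
    gcongr
  have h6 : η * ‖Rz T z f‖ ≤ ε / 2 + η * (2 * ‖w‖) := by
    calc η * ‖Rz T z f‖ ≤ η * ((ε / 2) / η + (‖w‖ + ‖w‖)) := by gcongr
      _ = ε / 2 + η * (2 * ‖w‖) := by field_simp; ring
  have h7 : η * (2 * ‖w‖) < ε / 2 := by
    have h8 : 4 * ‖w‖ / ε < (n : ℝ) + 1 := by
      have : (N : ℝ) ≤ n := by exact_mod_cast hn
      linarith
    rw [div_lt_iff₀ hε] at h8
    rw [hη, div_mul_eq_mul_div, one_mul, div_lt_iff₀ hn0]
    nlinarith
  linarith

theorem no_atom (T : X →L[ℂ] X) (hT : IsSelfAdjoint T) (E : ℝ)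
    (hE : ∀ u : X, T u = (E : ℂ) • u → u = 0) (f : X) (m : Measure ℝ) (hm : SpM T f m) :
    m {E} = 0 := by
  obtain ⟨hfin, hsp⟩ := hm
  -- the integrals
  have hlim : Tendsto (fun n : ℕ => ∫ x : ℝ, (((1 / ((n : ℝ) + 1) : ℝ) : ℂ) * Complex.I) *
      ((x : ℂ) - ((E : ℂ) + ((1 / ((n : ℝ) + 1) : ℝ) : ℂ) * Complex.I))⁻¹ ∂m) atTop
      (𝓝 (∫ x : ℝ, Set.indicator {E} (fun _ => (-1 : ℂ)) x ∂m)) := by
    have hpos : ∀ n : ℕ, (0 : ℝ) < 1 / ((n : ℝ) + 1) := fun n => by positivity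
    apply tendsto_integral_of_dominated_convergence (fun _ => (1 : ℝ))
    · intro n
      apply Continuous.aestronglyMeasurable
      apply Continuous.mul continuous_const
      apply Continuous.inv₀ (by fun_prop)
      intro x h0
      have := congrArg Complex.im h0
      simp only [Complex.sub_im, Complex.ofReal_im, Complex.add_im, Complex.mul_im,
        Complex.ofReal_re, Complex.I_im, mul_one, Complex.I_re, mul_zero, add_zero, zero_add,
        zero_sub, Complex.zero_im, neg_eq_zero] at this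
      exact (hpos n).ne' this
    · exact integrable_const _
    · intro n
      filter_upwards with x
      obtain ⟨η, hη⟩ : ∃ η : ℝ, η = 1 / ((n : ℝ) + 1) := ⟨_, rfl⟩
      have hη0 : 0 < η := hη ▸ hpos n
      rw [← hη, norm_mul, norm_mul, Complex.norm_I, mul_one, Complex.norm_real, Real.norm_eq_abs,
        abs_of_pos hη0, norm_inv]
      have h1 : η ≤ ‖(x : ℂ) - ((E : ℂ) + ((η : ℝ) : ℂ) * Complex.I)‖ := by
        have h2 := Complex.abs_im_le_norm ((x : ℂ) - ((E : ℂ) + ((η : ℝ) : ℂ) * Complex.I))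
        simp only [Complex.sub_im, Complex.ofReal_im, Complex.add_im, Complex.mul_im,
          Complex.ofReal_re, Complex.I_im, mul_one, Complex.I_re, mul_zero, add_zero, zero_add,
          zero_sub, abs_neg, abs_of_pos hη0] at h2
        exact h2
      rw [← div_eq_mul_inv, div_le_one (hη0.trans_le h1)]
      exact h1
    · filter_upwards with x
      by_cases hx : x = E
      · subst hx
        rw [Set.indicator_of_mem (Set.mem_singleton _)]
        refine tendsto_const_nhds.congr fun n => ?_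
        have h0 : (((1 / ((n : ℝ) + 1) : ℝ) : ℂ) * Complex.I) ≠ 0 := by
          apply mul_ne_zero _ Complex.I_ne_zero
          exact_mod_cast (hpos n).ne'
        rw [sub_add_cancel_left, inv_neg, mul_neg, mul_inv_cancel₀ h0]
      · rw [Set.indicator_of_notMem (by simpa using hx)]
        have hη : Tendsto (fun n : ℕ => (((1 / ((n : ℝ) + 1) : ℝ) : ℂ) * Complex.I)) atTop
            (𝓝 0) := by
          have h1 : Tendsto (fun n : ℕ => (1 / ((n : ℝ) + 1) : ℝ)) atTop (𝓝 0) :=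
            tendsto_one_div_add_atTop_nhds_zero_nat
          have h2 : Tendsto (fun n : ℕ => ((1 / ((n : ℝ) + 1) : ℝ) : ℂ)) atTop
              (𝓝 ((0 : ℝ) : ℂ)) := (Complex.continuous_ofReal.tendsto 0).comp h1
          have h3 := h2.mul_const Complex.I
          simpa using h3
        have h4 : Tendsto (fun n : ℕ => ((x : ℂ) - ((E : ℂ) +
            ((1 / ((n : ℝ) + 1) : ℝ) : ℂ) * Complex.I))⁻¹) atTop
            (𝓝 (((x : ℂ) - ((E : ℂ) + 0))⁻¹)) := by
          apply Tendsto.inv₀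
          · exact tendsto_const_nhds.sub (tendsto_const_nhds.add hη)
          · rw [add_zero, sub_ne_zero]
            exact_mod_cast hx
        have h5 := hη.mul h4
        rwa [zero_mul] at h5
  have hz : Tendsto (fun n : ℕ => ∫ x : ℝ, (((1 / ((n : ℝ) + 1) : ℝ) : ℂ) * Complex.I) *
      ((x : ℂ) - ((E : ℂ) + ((1 / ((n : ℝ) + 1) : ℝ) : ℂ) * Complex.I))⁻¹ ∂m) atTop (𝓝 0) := by
    have h1 := (eta_small T hT E hE f).const_mul ‖f‖
    rw [mul_zero] at h1
    apply squeeze_zero_norm _ h1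
    intro n
    have hpos : (0 : ℝ) < 1 / ((n : ℝ) + 1) := by positivity
    obtain ⟨η, hη⟩ : ∃ η : ℝ, η = 1 / ((n : ℝ) + 1) := ⟨_, rfl⟩
    rw [← hη] at hpos ⊢
    have him : ((E : ℂ) + ((η : ℝ) : ℂ) * Complex.I).im ≠ 0 := by
      simp only [Complex.ofReal_im, Complex.add_im, Complex.mul_im,
          Complex.ofReal_re, Complex.I_im, mul_one, Complex.I_re, mul_zero, add_zero, zero_add]
      exact hpos.ne'
    rw [integral_const_mul, ← hsp _ him, norm_mul, norm_mul, Complex.norm_I, mul_one,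
      Complex.norm_real, Real.norm_eq_abs, abs_of_pos hpos]
    have h2 := norm_inner_le_norm (𝕜 := ℂ) f (Rz T ((E : ℂ) + ((η : ℝ) : ℂ) * Complex.I) f)
    calc η * ‖⟪f, Rz T ((E : ℂ) + ((η : ℝ) : ℂ) * Complex.I) f⟫_ℂ‖
        ≤ η * (‖f‖ * ‖Rz T ((E : ℂ) + ((η : ℝ) : ℂ) * Complex.I) f‖) := by gcongr
      _ = ‖f‖ * (η * ‖Rz T ((E : ℂ) + ((η : ℝ) : ℂ) * Complex.I) f‖) := by ring
  have heq := tendsto_nhds_unique hlim hz
  rw [integral_indicator_const _ (measurableSet_singleton E)] at heq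
  have h1 : m.real {E} = 0 := by
    have := congrArg Complex.re heq
    simpa using this
  rw [measureReal_def, ENNReal.toReal_eq_zero_iff] at h1
  exact h1.resolve_right (measure_ne_top m _)

end

/-- P8 -/
theorem noAtom : Pool.Agent.Helper32.PG.S_NoAtom := by
  intro V T hT E hE f m hm
  exact no_atom T hT E hE f m hm

end Pool.Agent.Helper56.PG
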