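import Pool.Agent.Helper32.PG.Stm4

/-!
R1 of the polynomial growth project: if the spectral measure of `f` does not charge a neighbourhood of
`E`, then `(T - E) u = f` is solvable.
-/

set_option autoImplicit false

open MeasureTheory Filter Topology
open scoped InnerProductSpace ComplexConjugate

namespace Pool.Agent.Helper56.PG

open Pool.Agent.TH369.AN (Rz rz_eq rz_uniq rz_norm)
open Pool.Agent.Y662.TR (LL)
open Pool.Agent.TH369.MU (SpM)

/-- the resolvent function -/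
noncomputable def rr (z : ℂ) (x : ℝ) : ℂ := ((x : ℂ) - z)⁻¹

theorem rr_ne {z : ℂ} (hz : z.im ≠ 0) (x : ℝ) : (x : ℂ) - z ≠ 0 := by
  intro h0
  have := congrArg Complex.im h0
  simp only [Complex.sub_im, Complex.ofReal_im, zero_sub, Complex.zero_im, neg_eq_zero] at this
  exact hz this

theorem rr_cont {z : ℂ} (hz : z.im ≠ 0) : Continuous (rr z) := by
  unfold rr
  exact Continuous.inv₀ (by fun_prop) (rr_ne hz)

theorem rr_bound {z : ℂ} (hz : z.im ≠ 0) (x : ℝ) : ‖rr z x‖ ≤ |z.im|⁻¹ := by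
  unfold rr
  rw [norm_inv]
  have h2 := Complex.abs_im_le_norm ((x : ℂ) - z)
  simp only [Complex.sub_im, Complex.ofReal_im, zero_sub, abs_neg] at h2
  exact inv_anti₀ (abs_pos.2 hz) h2

theorem rr_conj (z : ℂ) (x : ℝ) : conj (rr z x) = rr (conj z) x := by
  unfold rr
  rw [map_inv₀, map_sub, Complex.conj_ofReal]

theorem rr_sub {z w : ℂ} (hz : z.im ≠ 0) (hw : w.im ≠ 0) (x : ℝ) :
    rr z x - rr w x = (z - w) * (rr z x * rr w x) := by
  unfold rr
  have h1 := rr_ne hz x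
  have h2 := rr_ne hw x
  field_simp
  ring

theorem rr_int {z : ℂ} (hz : z.im ≠ 0) (m : Measure ℝ) [IsFiniteMeasure m] :
    Integrable (rr z) m :=
  Integrable.of_bound (rr_cont hz).aestronglyMeasurable (|z.im|⁻¹)
    (Eventually.of_forall (rr_bound hz))

theorem rr_mul_int {z w : ℂ} (hz : z.im ≠ 0) (hw : w.im ≠ 0) (m : Measure ℝ) [IsFiniteMeasure m] :
    Integrable (fun x => rr z x * rr w x) m :=
  Integrable.of_bound ((rr_cont hz).mul (rr_cont hw)).aestronglyMeasurable (|z.im|⁻¹ * |w.im|⁻¹)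
    (Eventually.of_forall fun x => by
      rw [norm_mul]
      exact mul_le_mul (rr_bound hz x) (rr_bound hw x) (norm_nonneg _) (by positivity))

section
variable {X : Type} [NormedAddCommGroup X] [InnerProductSpace ℂ X] [CompleteSpace X]

theorem inner_rr (T : X →L[ℂ] X) (hT : IsSelfAdjoint T) (f : X) (m : Measure ℝ)
    (hm : SpM T f m) (z w : ℂ) (hz : 0 < z.im) (hw : 0 < w.im) :
    ⟪Rz T z f, Rz T w f⟫_ℂ = ∫ x : ℝ, rr (conj z) x * rr w x ∂m := by
  obtain ⟨hfin, hsp⟩ := hm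
  have hz' : (conj z).im ≠ 0 := by
    rw [Complex.conj_im]; exact neg_ne_zero.2 hz.ne'
  have hzw : conj z - w ≠ 0 := by
    intro h0
    have := congrArg Complex.im h0
    rw [Complex.sub_im, Complex.conj_im, Complex.zero_im] at this
    linarith
  obtain ⟨u, hu⟩ : ∃ u, u = Rz T z f := ⟨_, rfl⟩
  obtain ⟨v, hv⟩ : ∃ v, v = Rz T w f := ⟨_, rfl⟩
  have e1 : T u - z • u = f := by rw [hu]; exact rz_eq T hT z hz.ne' f
  have e2 : T v - w • v = f := by rw [hv]; exact rz_eq T hT w hw.ne' f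
  have hsym : ⟪T u, v⟫_ℂ = ⟪u, T v⟫_ℂ := by
    have := ContinuousLinearMap.adjoint_inner_left T v u
    rw [show ContinuousLinearMap.adjoint T = T from hT] at this
    exact this
  have e3 : (conj z - w) * ⟪u, v⟫_ℂ = ⟪u, f⟫_ℂ - ⟪f, v⟫_ℂ := by
    have h1 : ⟪u, f⟫_ℂ = ⟪u, T v⟫_ℂ - w * ⟪u, v⟫_ℂ := by
      conv_lhs => rw [← e2]
      rw [inner_sub_right, inner_smul_right]
    have h2 : ⟪f, v⟫_ℂ = ⟪T u, v⟫_ℂ - conj z * ⟪u, v⟫_ℂ := by
      conv_lhs => rw [← e1]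
      rw [inner_sub_left, inner_smul_left]
    rw [h1, h2, hsym]
    ring
  have e4 : ⟪f, v⟫_ℂ = ∫ x : ℝ, rr w x ∂m := by rw [hv]; exact hsp w hw.ne'
  have e5 : ⟪u, f⟫_ℂ = ∫ x : ℝ, rr (conj z) x ∂m := by
    rw [← inner_conj_symm, hu, hsp z hz.ne', ← integral_conj]
    exact integral_congr_ae (Eventually.of_forall fun x => rr_conj z x)
  rw [← hu, ← hv]
  apply mul_left_cancel₀ hzw
  rw [e3, e4, e5, ← integral_sub (rr_int hz' m) (rr_int hw.ne' m), ← integral_const_mul]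
  exact integral_congr_ae (Eventually.of_forall fun x => rr_sub hz' hw.ne' x)

theorem norm_sub_rr (T : X →L[ℂ] X) (hT : IsSelfAdjoint T) (f : X) (m : Measure ℝ)
    (hm : SpM T f m) (z w : ℂ) (hz : 0 < z.im) (hw : 0 < w.im) (E ε : ℝ) (hε : 0 < ε)
    (hzE : z.re = E) (hwE : w.re = E) (hmE : m (Set.Ioo (E - ε) (E + ε)) = 0) :
    ‖Rz T z f - Rz T w f‖ ^ 2 ≤ (‖z - w‖ / ε ^ 2) ^ 2 * m.real Set.univ := by
  have hfin : IsFiniteMeasure m := hm.1
  have hz' : (conj z).im ≠ 0 := by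
    rw [Complex.conj_im]; exact neg_ne_zero.2 hz.ne'
  have hw' : (conj w).im ≠ 0 := by
    rw [Complex.conj_im]; exact neg_ne_zero.2 hw.ne'
  have h1 : ((‖Rz T z f - Rz T w f‖ ^ 2 : ℝ) : ℂ) = ∫ x : ℝ, ((‖rr z x - rr w x‖ ^ 2 : ℝ) : ℂ) ∂m := by
    have h2 : ((‖Rz T z f - Rz T w f‖ ^ 2 : ℝ) : ℂ) =
        ⟪Rz T z f - Rz T w f, Rz T z f - Rz T w f⟫_ℂ := by
      rw [inner_self_eq_norm_sq_to_K]; push_cast; rfl
    have I1 : Integrable (fun x => rr (conj z) x * rr z x - rr (conj z) x * rr w x) m :=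
      (rr_mul_int hz' hz.ne' m).sub (rr_mul_int hz' hw.ne' m)
    have I2 : Integrable (fun x => rr (conj w) x * rr z x - rr (conj w) x * rr w x) m :=
      (rr_mul_int hw' hz.ne' m).sub (rr_mul_int hw' hw.ne' m)
    rw [h2, inner_sub_left, inner_sub_right, inner_sub_right, inner_rr T hT f m hm z z hz hz,
      inner_rr T hT f m hm z w hz hw, inner_rr T hT f m hm w z hw hz,
      inner_rr T hT f m hm w w hw hw,
      ← integral_sub (rr_mul_int hz' hz.ne' m) (rr_mul_int hz' hw.ne' m),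
      ← integral_sub (rr_mul_int hw' hz.ne' m) (rr_mul_int hw' hw.ne' m),
      ← integral_sub I1 I2]
    apply integral_congr_ae
    refine Eventually.of_forall fun x => ?_
    have h3 : ((‖rr z x - rr w x‖ ^ 2 : ℝ) : ℂ) = conj (rr z x - rr w x) * (rr z x - rr w x) := by
      rw [mul_comm, Complex.mul_conj, Complex.normSq_eq_norm_sq]
    show _ = ((‖rr z x - rr w x‖ ^ 2 : ℝ) : ℂ)
    rw [h3, map_sub, rr_conj, rr_conj]
    ring
  have h1 := h1.trans (integral_ofReal (𝕜 := ℂ))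
  have h4 : ‖Rz T z f - Rz T w f‖ ^ 2 = ∫ x : ℝ, ‖rr z x - rr w x‖ ^ 2 ∂m := by
    exact Complex.ofReal_injective h1
  rw [h4]
  have hae : ∀ᵐ x ∂m, ‖rr z x - rr w x‖ ^ 2 ≤ (‖z - w‖ / ε ^ 2) ^ 2 := by
    have h5 : ∀ᵐ x ∂m, x ∉ Set.Ioo (E - ε) (E + ε) := by
      rw [ae_iff]
      have e : {x : ℝ | ¬ x ∉ Set.Ioo (E - ε) (E + ε)} = Set.Ioo (E - ε) (E + ε) := by
        ext x
        exact not_not
      rw [e]
      exact hmE
    filter_upwards [h5] with x hx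
    have hx' : ε ≤ |x - E| := by
      by_contra hlt
      rw [not_le, abs_lt] at hlt
      exact hx ⟨by linarith [hlt.1], by linarith [hlt.2]⟩
    have hb : ∀ y : ℂ, y.re = E → ‖rr y x‖ ≤ ε⁻¹ := by
      intro y hy
      unfold rr
      rw [norm_inv]
      refine inv_anti₀ hε (hx'.trans ?_)
      have := Complex.abs_re_le_norm ((x : ℂ) - y)
      rwa [Complex.sub_re, Complex.ofReal_re, hy] at this
    rw [rr_sub hz.ne' hw.ne', norm_mul, norm_mul]
    have h6 : ‖rr z x‖ * ‖rr w x‖ ≤ ε⁻¹ * ε⁻¹ :=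
      mul_le_mul (hb z hzE) (hb w hwE) (norm_nonneg _) (by positivity)
    have h7 : ‖z - w‖ * (‖rr z x‖ * ‖rr w x‖) ≤ ‖z - w‖ / ε ^ 2 := by
      calc ‖z - w‖ * (‖rr z x‖ * ‖rr w x‖) ≤ ‖z - w‖ * (ε⁻¹ * ε⁻¹) := by gcongr
        _ = _ := by rw [div_eq_mul_inv]; ring
    gcongr
  have h8 : ∫ x : ℝ, ‖rr z x - rr w x‖ ^ 2 ∂m ≤ ∫ _x : ℝ, (‖z - w‖ / ε ^ 2) ^ 2 ∂m := by
    refine integral_mono_of_nonneg (Eventually.of_forall fun x => by positivity)
      (integrable_const _) hae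
  rw [integral_const, smul_eq_mul, mul_comm] at h8
  exact h8

theorem sol_aux (T : X →L[ℂ] X) (hT : IsSelfAdjoint T) (f : X) (m : Measure ℝ)
    (hm : SpM T f m) (E ε : ℝ) (hε : 0 < ε) (hmE : m (Set.Ioo (E - ε) (E + ε)) = 0) :
    ∃ u : X, T u - (E : ℂ) • u = f := by
  obtain ⟨z, hz⟩ : ∃ z : ℕ → ℂ, ∀ k, z k = (E : ℂ) + ((1 / ((k : ℝ) + 1) : ℝ) : ℂ) * Complex.I :=
    ⟨_, fun _ => rfl⟩
  have hpos : ∀ k : ℕ, (0 : ℝ) < 1 / ((k : ℝ) + 1) := fun k => by positivity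
  have him : ∀ k, (z k).im = 1 / ((k : ℝ) + 1) := fun k => by
    rw [hz]
    simp only [Complex.add_im, Complex.ofReal_im, Complex.mul_im, Complex.ofReal_re,
      Complex.I_im, mul_one, Complex.I_re, mul_zero, add_zero, zero_add]
  have hre : ∀ k, (z k).re = E := fun k => by
    rw [hz]
    simp only [Complex.add_re, Complex.ofReal_re, Complex.mul_re, Complex.I_re, mul_zero,
      Complex.ofReal_im, Complex.I_im, mul_one, sub_zero, add_zero]
  have hzim : ∀ k, 0 < (z k).im := fun k => by rw [him]; exact hpos k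
  have hdist : ∀ k l N : ℕ, N ≤ k → N ≤ l → ‖z k - z l‖ ≤ 1 / ((N : ℝ) + 1) := by
    intro k l N hk hl
    have e : z k - z l = (((1 / ((k : ℝ) + 1) - 1 / ((l : ℝ) + 1) : ℝ)) : ℂ) * Complex.I := by
      rw [hz, hz]; push_cast; ring
    rw [e, norm_mul, Complex.norm_I, mul_one, Complex.norm_real, Real.norm_eq_abs]
    have h1 : 1 / ((k : ℝ) + 1) ≤ 1 / ((N : ℝ) + 1) := by
      apply one_div_le_one_div_of_le (by positivity)
      have : (N : ℝ) ≤ k := by exact_mod_cast hk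
      linarith
    have h2 : 1 / ((l : ℝ) + 1) ≤ 1 / ((N : ℝ) + 1) := by
      apply one_div_le_one_div_of_le (by positivity)
      have : (N : ℝ) ≤ l := by exact_mod_cast hl
      linarith
    rw [abs_le]
    constructor
    · linarith [hpos k]
    · linarith [hpos l]
  obtain ⟨K, hK⟩ : ∃ K : ℝ, K = Real.sqrt (m.real Set.univ) / ε ^ 2 := ⟨_, rfl⟩
  have hK0 : 0 ≤ K := by rw [hK]; positivity
  have hbound : ∀ k l N : ℕ, N ≤ k → N ≤ l →
      dist (Rz T (z k) f) (Rz T (z l) f) ≤ K * (1 / ((N : ℝ) + 1)) := by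
    intro k l N hk hl
    rw [dist_eq_norm]
    have h1 := norm_sub_rr T hT f m hm (z k) (z l) (hzim k) (hzim l) E ε hε (hre k) (hre l) hmE
    have h2 : (‖z k - z l‖ / ε ^ 2) ^ 2 * m.real Set.univ = (K * ‖z k - z l‖) ^ 2 := by
      rw [hK, mul_pow, div_pow, div_pow, Real.sq_sqrt measureReal_nonneg]
      ring
    rw [h2] at h1
    have h3 : ‖Rz T (z k) f - Rz T (z l) f‖ ≤ K * ‖z k - z l‖ :=
      (pow_le_pow_iff_left₀ (norm_nonneg _) (by positivity) two_ne_zero).1 h1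
    refine h3.trans ?_
    gcongr
    exact hdist k l N hk hl
  have hcauchy : CauchySeq fun k => Rz T (z k) f := by
    refine cauchySeq_of_le_tendsto_0 (fun N : ℕ => K * (1 / ((N : ℝ) + 1))) hbound ?_
    have := (tendsto_one_div_add_atTop_nhds_zero_nat (𝕜 := ℝ)).const_mul K
    rwa [mul_zero] at this
  obtain ⟨u, hu⟩ := cauchySeq_tendsto_of_complete hcauchy
  refine ⟨u, ?_⟩
  have h1 : Tendsto (fun k => T (Rz T (z k) f) - z k • Rz T (z k) f) atTop
      (𝓝 (T u - (E : ℂ) • u)) := by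
    refine ((T.continuous.tendsto u).comp hu).sub (Tendsto.smul ?_ hu)
    have h2 : Tendsto (fun k : ℕ => ((1 / ((k : ℝ) + 1) : ℝ) : ℂ)) atTop (𝓝 ((0 : ℝ) : ℂ)) :=
      (Complex.continuous_ofReal.tendsto 0).comp tendsto_one_div_add_atTop_nhds_zero_nat
    have h3 := (h2.mul_const Complex.I).const_add (E : ℂ)
    rw [Complex.ofReal_zero, zero_mul, add_zero] at h3
    refine h3.congr fun k => (hz k).symm
  have h4 : Tendsto (fun k => T (Rz T (z k) f) - z k • Rz T (z k) f) atTop (𝓝 f) := by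
    refine tendsto_const_nhds.congr fun k => ?_
    exact (rz_eq T hT (z k) (hzim k).ne' f).symm
  exact tendsto_nhds_unique h1 h4

end

/-- R1 -/
theorem sol : Pool.Agent.Helper32.PG.S_Sol := by
  intro V T hT f m hm E ε hε hmE
  exact sol_aux T hT f m hm E ε hε hmE

end Pool.Agent.Helper56.PG
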